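import Mathlib

/-!
Barycentres of measures on compact convex sets and the barycentric formula for bounded affine
functions of the first Baire class.
-/

namespace Pool.Agent.P.MP_8da836_an

open Filter Topology MeasureTheory Set

variable {V : Type*} [AddCommGroup V] [Module ℝ V] [TopologicalSpace V] [IsTopologicalAddGroup V]
  [ContinuousSMul ℝ V] [LocallyConvexSpace ℝ V] [T2Space V] {X : Set V}

/-- existence of a barycentre inside a compact convex set carrying the measure -/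
theorem exists_bary [CompactSpace X] [MeasurableSpace X] [BorelSpace X]
    (ν : Measure X) [IsFiniteMeasure ν] (hν : ν ≠ 0) {K : Set V} (hK : IsCompact K)
    (hKc : Convex ℝ K) (hνK : ∀ᵐ x : X ∂ν, (x : V) ∈ K) :
    ∃ r ∈ K, ∀ l : V →L[ℝ] ℝ, ∫ x : X, l x ∂ν = ν.real univ * l r := by
  have : NeZero ν := ⟨hν⟩
  have hpos : 0 < ν.real univ := measureReal_univ_pos
  have key : ∀ s : Finset (V →L[ℝ] ℝ),
      (K ∩ ⋂ l ∈ s, {r : V | ∫ x : X, l x ∂ν = ν.real univ * l r}).Nonempty := by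
    intro s
    let L : V →L[ℝ] (s → ℝ) := ContinuousLinearMap.pi (fun l : s => (l : V →L[ℝ] ℝ))
    have hc : IsCompact (L '' K) := hK.image L.continuous
    have hv : Convex ℝ (L '' K) := hKc.linear_image (L : V →ₗ[ℝ] (s → ℝ))
    have hcont : Continuous (fun x : X => L x) := L.continuous.comp continuous_subtype_val
    have hint : Integrable (fun x : X => L x) ν :=
      hcont.integrable_of_hasCompactSupport (HasCompactSupport.of_compactSpace _)
    have hmem := hv.average_mem (μ := ν) hc.isClosed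
      (f := fun x : X => L x) (hνK.mono fun x hx => mem_image_of_mem _ hx) hint
    obtain ⟨r, hrK, hr⟩ := hmem
    refine ⟨r, hrK, ?_⟩
    simp only [mem_iInter, mem_ofPred_eq]
    intro l hl
    have h1 : (L r) ⟨l, hl⟩ = l r := rfl
    have h2 : (∫ x : X, L x ∂ν) ⟨l, hl⟩ = ∫ x : X, l x ∂ν := by
      have := (ContinuousLinearMap.proj (R := ℝ) (φ := fun _ : s => ℝ) ⟨l, hl⟩).integral_comp_comm
        hint
      exact this.symm
    rw [← h1, hr, average_eq, Pi.smul_apply, h2, smul_eq_mul, ← mul_assoc,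
      mul_inv_cancel₀ hpos.ne', one_mul]
  have hcl : ∀ l : V →L[ℝ] ℝ, IsClosed {r : V | ∫ x : X, l x ∂ν = ν.real univ * l r} :=
    fun l => isClosed_eq continuous_const (continuous_const.mul l.continuous)
  obtain ⟨r, hrK, hr⟩ := hK.inter_iInter_nonempty _ hcl key
  exact ⟨r, hrK, fun l => mem_iInter.1 hr l⟩

/-- a Baire-one function has small oscillation somewhere on each nonempty closed set -/
theorem fragment {Z : Type*} [TopologicalSpace Z] [CompactSpace Z] [T2Space Z]
    {a : Z → ℝ} {u : ℕ → Z → ℝ} (hu : ∀ n, Continuous (u n))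
    (hlim : ∀ x, Tendsto (fun n => u n x) atTop (𝓝 (a x)))
    {Y : Set Z} (hY : IsClosed Y) (hne : Y.Nonempty) {ε : ℝ} (hε : 0 < ε) :
    ∃ x ∈ Y, ∃ U ∈ 𝓝 x, ∀ y ∈ U ∩ Y, ∀ z ∈ U ∩ Y, a y - a z ≤ ε := by
  have : CompactSpace Y := isCompact_iff_compactSpace.mp hY.isCompact
  have : Nonempty Y := hne.to_subtype
  let F : ℕ → Set Y := fun n => {y | ∀ m, n ≤ m → |u m y - u n y| ≤ ε / 4}
  have hFc : ∀ n, IsClosed (F n) := by
    intro n
    have : F n = ⋂ m, ⋂ (_ : n ≤ m), {y : Y | |u m y - u n y| ≤ ε / 4} := by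
      ext y; simp [F]
    rw [this]
    refine isClosed_iInter fun m => isClosed_iInter fun _ => ?_
    refine isClosed_le ?_ continuous_const
    exact (((hu m).comp continuous_subtype_val).sub ((hu n).comp continuous_subtype_val)).abs
  have hFu : ⋃ n, F n = univ := by
    refine eq_univ_of_forall fun y => ?_
    obtain ⟨N, hN⟩ := Metric.tendsto_atTop.1 (hlim y) (ε / 8) (by positivity)
    refine mem_iUnion.2 ⟨N, fun m hm => ?_⟩
    have h1 := hN m hm
    have h2 := hN N le_rfl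
    rw [Real.dist_eq] at h1 h2
    have := abs_sub_le (u m y) (a y) (u N y)
    rw [abs_sub_comm (a y)] at this
    linarith
  obtain ⟨n, x, hx⟩ := nonempty_interior_of_iUnion_of_closed hFc hFu
  have hxn : F n ∈ 𝓝 x := mem_interior_iff_mem_nhds.1 hx
  rw [nhds_subtype, mem_comap] at hxn
  obtain ⟨W, hW, hWF⟩ := hxn
  have hc : {y : Z | |u n y - u n x| < ε / 4} ∈ 𝓝 (x : Z) := by
    have : IsOpen {y : Z | |u n y - u n x| < ε / 4} :=
      isOpen_lt ((hu n).sub continuous_const).abs continuous_const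
    exact this.mem_nhds (by simpa using hε)
  refine ⟨x, x.2, _, inter_mem hW hc, ?_⟩
  have hb : ∀ y ∈ (W ∩ {y : Z | |u n y - u n x| < ε / 4}) ∩ Y, |a y - u n x| ≤ ε / 2 := by
    rintro y ⟨⟨hyW, hy2⟩, hyY⟩
    have h1 : (⟨y, hyY⟩ : Y) ∈ F n := hWF hyW
    have h2 : |a y - u n y| ≤ ε / 4 := by
      have ht : Tendsto (fun m => |u m y - u n y|) atTop (𝓝 |a y - u n y|) :=
        ((hlim y).sub_const _).abs
      exact le_of_tendsto ht (eventually_atTop.2 ⟨n, fun m hm => h1 m hm⟩)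
    have := abs_sub_le (a y) (u n y) (u n x)
    have hy2' : |u n y - u n x| < ε / 4 := hy2
    linarith
  intro y hy z hz
  have h1 := abs_le.1 (hb y hy)
  have h2 := abs_le.1 (hb z hz)
  linarith [h1.2, h2.1]

/-- every set of positive measure meets, in positive measure, a compact convex set on which the
affine Baire-one function oscillates little -/
theorem exists_good [CompactSpace X] [MeasurableSpace X] [BorelSpace X] (hXv : Convex ℝ X)
    {a : X → ℝ} (ha : ∀ (x y z : X) (t : ℝ), 0 ≤ t → t ≤ 1 →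
      (z : V) = t • (x : V) + (1 - t) • (y : V) → a z = t * a x + (1 - t) * a y)
    {u : ℕ → X → ℝ} (hu : ∀ n, Continuous (u n))
    (hlim : ∀ x, Tendsto (fun n => u n x) atTop (𝓝 (a x)))
    (ν : Measure X) [IsFiniteMeasure ν] [ν.InnerRegular] {B : Set X}
    (hνB : ν B ≠ 0) {ε : ℝ} (hε : 0 < ε) :
    ∃ K : Set V, IsCompact K ∧ Convex ℝ K ∧
      (∀ y z : X, (y : V) ∈ K → (z : V) ∈ K → a y - a z ≤ ε) ∧
      ν ((Subtype.val ⁻¹' K) ∩ B) ≠ 0 := by
  have hXc : IsCompact X := isCompact_iff_compactSpace.mpr inferInstance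
  set ν' := ν.restrict B with hν'
  have : ν'.InnerRegular := inferInstance
  have hS0 : ν' (ν'.support)ᶜ = 0 := Measure.measure_compl_support_of_innerRegular
  have hSne : ν'.support.Nonempty := by
    by_contra h
    rw [not_nonempty_iff_eq_empty] at h
    rw [h, compl_empty, hν', Measure.restrict_apply_univ] at hS0
    exact hνB hS0
  set S : Set V := Subtype.val '' ν'.support with hS
  set Y : Set V := closure (convexHull ℝ S) with hY
  have hSX : S ⊆ X := by rintro _ ⟨x, -, rfl⟩; exact x.2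
  have hYX : Y ⊆ X := closure_minimal (convexHull_min hSX hXv) hXc.isClosed
  have hYv : Convex ℝ Y := (convex_convexHull ℝ S).closure
  have hYcl : IsClosed Y := isClosed_closure
  have hSY : S ⊆ Y := (subset_convexHull ℝ S).trans subset_closure
  set Z : Set V := {v | v ∈ Y ∧ ∀ U ∈ 𝓝 v, ∃ y z : X, (y : V) ∈ U ∩ Y ∧ (z : V) ∈ U ∩ Y ∧
    ε < a y - a z} with hZ
  have hZcl : IsClosed Z := by
    rw [← closure_subset_iff_isClosed]
    intro v hv
    refine ⟨hYcl.closure_subset (closure_mono (fun w hw => hw.1) hv), fun U hU => ?_⟩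
    obtain ⟨w, hwU, hwZ⟩ := mem_closure_iff_nhds.1 hv (interior U) (interior_mem_nhds.2 hU)
    exact hwZ.2 U (mem_interior_iff_mem_nhds.1 hwU)
  have hZv : Convex ℝ Z := by
    intro v hv w hw s t hs ht hst
    refine ⟨hYv hv.1 hw.1 hs ht hst, fun U hU => ?_⟩
    have hc : Continuous (fun p : V × V => s • p.1 + t • p.2) := by fun_prop
    have hU' : (fun p : V × V => s • p.1 + t • p.2) ⁻¹' U ∈ 𝓝 (v, w) :=
      hc.continuousAt.preimage_mem_nhds hU
    rw [nhds_prod_eq, mem_prod_iff] at hU'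
    obtain ⟨U₁, hU₁, U₂, hU₂, hsub⟩ := hU'
    obtain ⟨y₁, z₁, hy₁, hz₁, h₁⟩ := hv.2 U₁ hU₁
    obtain ⟨y₂, z₂, hy₂, hz₂, h₂⟩ := hw.2 U₂ hU₂
    have ht' : t = 1 - s := by linarith
    have hyY : s • (y₁ : V) + t • (y₂ : V) ∈ Y := hYv hy₁.2 hy₂.2 hs ht hst
    have hzY : s • (z₁ : V) + t • (z₂ : V) ∈ Y := hYv hz₁.2 hz₂.2 hs ht hst
    refine ⟨⟨_, hYX hyY⟩, ⟨_, hYX hzY⟩, ⟨hsub (mk_mem_prod hy₁.1 hy₂.1), hyY⟩,
      ⟨hsub (mk_mem_prod hz₁.1 hz₂.1), hzY⟩, ?_⟩
    rw [ha y₁ y₂ ⟨_, hYX hyY⟩ s hs (by linarith) (by rw [← ht']),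
      ha z₁ z₂ ⟨_, hYX hzY⟩ s hs (by linarith) (by rw [← ht']), ← ht']
    rcases hs.eq_or_lt with h0 | h0
    · have : t = 1 := by linarith
      rw [← h0, this]; linarith
    · have e1 : s * ε < s * (a y₁ - a z₁) := mul_lt_mul_of_pos_left h₁ h0
      have e2 : t * ε ≤ t * (a y₂ - a z₂) := mul_le_mul_of_nonneg_left h₂.le ht
      have e3 : s * ε + t * ε = ε := by rw [← add_mul, hst, one_mul]
      nlinarith
  have hnot : ¬ S ⊆ Z := by
    intro hSZ
    have hYZ : Y ⊆ Z := closure_minimal (convexHull_min hSZ hZv) hZcl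
    have hY'cl : IsClosed (Subtype.val ⁻¹' Y : Set X) := hYcl.preimage continuous_subtype_val
    have hY'ne : (Subtype.val ⁻¹' Y : Set X).Nonempty := by
      obtain ⟨x, hx⟩ := hSne
      exact ⟨x, hSY (mem_image_of_mem _ hx)⟩
    obtain ⟨x, hxY, U, hU, hosc⟩ := fragment hu hlim hY'cl hY'ne hε
    rw [nhds_subtype, mem_comap] at hU
    obtain ⟨W, hW, hWU⟩ := hU
    obtain ⟨y, z, hy, hz, hlt⟩ := (hYZ hxY).2 W hW
    have := hosc y ⟨hWU hy.1, hy.2⟩ z ⟨hWU hz.1, hz.2⟩
    linarith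
  rw [not_subset] at hnot
  obtain ⟨_, ⟨x, hxS, rfl⟩, hxZ⟩ := hnot
  have hxY : (x : V) ∈ Y := hSY (mem_image_of_mem _ hxS)
  simp only [hZ, mem_ofPred_eq, not_and, not_forall, not_exists, not_lt] at hxZ
  obtain ⟨U, hU, hosc⟩ := hxZ hxY
  obtain ⟨U₁, hU₁, hU₁cl, hU₁U⟩ := exists_mem_nhds_isClosed_subset hU
  obtain ⟨U₂, ⟨hU₂, hU₂v⟩, hU₂U⟩ := (LocallyConvexSpace.convex_basis (𝕜 := ℝ) (x : V)).mem_iff.1 hU₁
  have hclU : closure U₂ ⊆ U := (closure_minimal hU₂U hU₁cl).trans hU₁U
  refine ⟨closure U₂ ∩ Y, hXc.of_isClosed_subset (isClosed_closure.inter hYcl)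
    (inter_subset_right.trans hYX), hU₂v.closure.inter hYv, fun y z hy hz => ?_, ?_⟩
  · exact hosc y z ⟨hclU hy.1, hy.2⟩ ⟨hclU hz.1, hz.2⟩
  · have hmeas : MeasurableSet (Subtype.val ⁻¹' (closure U₂ ∩ Y) : Set X) :=
      ((isClosed_closure.inter hYcl).preimage continuous_subtype_val).measurableSet
    rw [← Measure.restrict_apply hmeas, ← hν']
    intro h0
    have hpos : 0 < ν' (Subtype.val ⁻¹' U₂) :=
      (Measure.mem_support_iff_forall x).1 hxS _
        (continuous_subtype_val.continuousAt.preimage_mem_nhds hU₂)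
    have hsub : (Subtype.val ⁻¹' U₂ : Set X) ⊆
        (Subtype.val ⁻¹' (closure U₂ ∩ Y)) ∪ (ν'.support)ᶜ := by
      intro y hy
      by_cases hyS : y ∈ ν'.support
      · exact Or.inl ⟨subset_closure hy, hSY (mem_image_of_mem _ hyS)⟩
      · exact Or.inr hyS
    have := measure_mono_null hsub (measure_union_null h0 hS0)
    exact hpos.ne' this

/-- finitely many good sets carry almost all of the measure -/
theorem exists_good_list {Z : Type*} [MeasurableSpace Z] (ν : Measure Z) [IsFiniteMeasure ν]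
    (G : Set (Set Z)) (hGm : ∀ K ∈ G, MeasurableSet K)
    (hG : ∀ B : Set Z, ν B ≠ 0 → ∃ K ∈ G, ν (K ∩ B) ≠ 0) {η : ℝ} (hη : 0 < η) :
    ∃ L : List (Set Z), (∀ K ∈ L, K ∈ G) ∧ ν.real (⋃ K ∈ L, K)ᶜ ≤ η := by
  let T : Set ℝ := {r | ∃ L : List (Set Z), (∀ K ∈ L, K ∈ G) ∧ r = ν.real (⋃ K ∈ L, K)ᶜ}
  have hTne : T.Nonempty := ⟨_, [], by simp, rfl⟩
  have hTb : BddBelow T := ⟨0, by rintro _ ⟨L, -, rfl⟩; exact measureReal_nonneg⟩
  have hmeas : ∀ L : List (Set Z), (∀ K ∈ L, K ∈ G) → MeasurableSet (⋃ K ∈ L, K) := by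
    intro L hL
    exact MeasurableSet.biUnion (L.finite_toSet.countable) fun K hK => hGm K (hL K hK)
  have happ : ∀ n : ℕ, ∃ L : List (Set Z), (∀ K ∈ L, K ∈ G) ∧
      ν.real (⋃ K ∈ L, K)ᶜ < sInf T + 1 / ((n : ℝ) + 1) := by
    intro n
    obtain ⟨_, ⟨L, hL, rfl⟩, hlt⟩ := Real.lt_sInf_add_pos hTne
      (show (0 : ℝ) < 1 / ((n : ℝ) + 1) by positivity)
    exact ⟨L, hL, hlt⟩
  choose L hL hLlt using happ
  let B : Set Z := ⋂ n, (⋃ K ∈ L n, K)ᶜ
  have hB0 : ν B = 0 := by
    by_contra hB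
    obtain ⟨K, hKG, hKB⟩ := hG B hB
    have hδ : 0 < ν.real (K ∩ B) := by
      rw [measureReal_def]
      exact ENNReal.toReal_pos hKB (measure_ne_top _ _)
    obtain ⟨n, hn⟩ := exists_nat_one_div_lt hδ
    have h1 : sInf T ≤ ν.real (⋃ K' ∈ (K :: L n), K')ᶜ := by
      refine csInf_le hTb ⟨K :: L n, ?_, rfl⟩
      intro K' hK'
      rcases List.mem_cons.1 hK' with rfl | h
      · exact hKG
      · exact hL n K' h
    have h2 : ν.real (⋃ K' ∈ (K :: L n), K')ᶜ + ν.real (K ∩ B) ≤ ν.real (⋃ K ∈ L n, K)ᶜ := by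
      have hm1 : MeasurableSet (K ∩ B) :=
        (hGm K hKG).inter (MeasurableSet.iInter fun n => (hmeas _ (hL n)).compl)
      rw [← measureReal_union _ hm1]
      · refine measureReal_mono ?_
        rintro x (hx | hx)
        · intro hx'
          apply hx
          simp only [mem_iUnion] at hx' ⊢
          obtain ⟨K', hK', hxK'⟩ := hx'
          exact ⟨K', List.mem_cons_of_mem _ hK', hxK'⟩
        · exact mem_iInter.1 hx.2 n
      · rw [Set.disjoint_left]
        intro x hx hx'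
        apply hx
        simp only [mem_iUnion]
        exact ⟨K, List.mem_cons_self, hx'.1⟩
    linarith [hLlt n]
  -- concatenate the first lists
  let M : ℕ → List (Set Z) := fun n => (List.range (n + 1)).flatMap L
  have hM : ∀ n, ∀ K ∈ M n, K ∈ G := by
    intro n K hK
    obtain ⟨i, -, hi⟩ := List.mem_flatMap.1 hK
    exact hL i K hi
  have hanti : Antitone fun n => (⋃ K ∈ M n, K)ᶜ := by
    intro m n hmn x hx hx'
    apply hx
    simp only [mem_iUnion] at hx' ⊢
    obtain ⟨K, hK, hxK⟩ := hx'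
    obtain ⟨i, hi, hi'⟩ := List.mem_flatMap.1 hK
    refine ⟨K, List.mem_flatMap.2 ⟨i, ?_, hi'⟩, hxK⟩
    rw [List.mem_range] at hi ⊢
    omega
  have hint : ν (⋂ n, (⋃ K ∈ M n, K)ᶜ) = 0 := by
    refine measure_mono_null ?_ hB0
    intro x hx
    refine mem_iInter.2 fun n hx' => mem_iInter.1 hx n ?_
    simp only [mem_iUnion] at hx' ⊢
    obtain ⟨K, hK, hxK⟩ := hx'
    exact ⟨K, List.mem_flatMap.2 ⟨n, by simp, hK⟩, hxK⟩
  have ht := tendsto_measure_iInter_atTop (μ := ν)
    (fun n => (hmeas _ (hM n)).compl.nullMeasurableSet) hanti ⟨0, measure_ne_top _ _⟩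
  rw [hint] at ht
  have ht' : Tendsto (fun n => ν.real (⋃ K ∈ M n, K)ᶜ) atTop (𝓝 0) := by
    have := (ENNReal.tendsto_toReal ENNReal.zero_ne_top).comp ht
    simpa [measureReal_def, Function.comp_def] using this
  obtain ⟨n, hn⟩ := (ht'.eventually (gt_mem_nhds hη)).exists
  exact ⟨M n, hM n, hn.le⟩

/-- the barycentric formula for bounded affine Baire-one functions -/
theorem bary_formula [CompactSpace X] [MeasurableSpace X] [BorelSpace X] (hXv : Convex ℝ X)
    {a : X → ℝ} (ha : ∀ (x y z : X) (t : ℝ), 0 ≤ t → t ≤ 1 →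
      (z : V) = t • (x : V) + (1 - t) • (y : V) → a z = t * a x + (1 - t) * a y)
    {u : ℕ → X → ℝ} (hu : ∀ n, Continuous (u n))
    (hlim : ∀ x, Tendsto (fun n => u n x) atTop (𝓝 (a x))) {M : ℝ} (hM : ∀ x, |a x| ≤ M)
    (ν : Measure X) [IsFiniteMeasure ν] [ν.InnerRegular] (r : X)
    (hr : ∀ l : V →L[ℝ] ℝ, ∫ x : X, l x ∂ν = ν.real univ * l r) :
    ∫ x, a x ∂ν = ν.real univ * a r := by
  have hXc : IsCompact X := isCompact_iff_compactSpace.mpr inferInstance
  have ham : Measurable a := measurable_of_tendsto_metrizable (fun n => (hu n).measurable)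
    (tendsto_pi_nhds.2 hlim)
  have hai : ∀ (μ : Measure X) [IsFiniteMeasure μ], Integrable a μ := fun μ _ =>
    Integrable.of_bound ham.aestronglyMeasurable M (Eventually.of_forall fun x => hM x)
  have hli : ∀ (μ : Measure X) [IsFiniteMeasure μ] (l : V →L[ℝ] ℝ),
      Integrable (fun x : X => l x) μ := fun μ _ l =>
    (l.continuous.comp continuous_subtype_val).integrable_of_hasCompactSupport
      (HasCompactSupport.of_compactSpace _)
  -- the property to be propagated
  let P : Measure X → ℝ → Prop := fun μ c => ∀ s : X,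
    (∀ l : V →L[ℝ] ℝ, ∫ x : X, l x ∂μ = μ.real univ * l s) →
      |∫ x, a x ∂μ - μ.real univ * a s| ≤ c
  have hex : ∀ (μ : Measure X) [IsFiniteMeasure μ], ∃ s : X,
      ∀ l : V →L[ℝ] ℝ, ∫ x : X, l x ∂μ = μ.real univ * l s := by
    intro μ _
    by_cases hμ : μ = 0
    · exact ⟨r, fun l => by simp [hμ]⟩
    · obtain ⟨s, hs, hs'⟩ := exists_bary μ hμ hXc hXv (Eventually.of_forall fun x => x.2)
      exact ⟨⟨s, hs⟩, hs'⟩
  have hadd : ∀ (μ₁ μ₂ : Measure X) [IsFiniteMeasure μ₁] [IsFiniteMeasure μ₂] (c₁ c₂ : ℝ),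
      P μ₁ c₁ → P μ₂ c₂ → P (μ₁ + μ₂) (c₁ + c₂) := by
    intro μ₁ μ₂ _ _ c₁ c₂ h₁ h₂ s hs
    obtain ⟨s₁, hs₁⟩ := hex μ₁
    obtain ⟨s₂, hs₂⟩ := hex μ₂
    have e₁ := abs_le.1 (h₁ s₁ hs₁)
    have e₂ := abs_le.1 (h₂ s₂ hs₂)
    have hm : (μ₁ + μ₂).real univ = μ₁.real univ + μ₂.real univ := measureReal_add_apply
    have hm₁ : 0 ≤ μ₁.real univ := measureReal_nonneg
    have hm₂ : 0 ≤ μ₂.real univ := measureReal_nonneg
    have key : (μ₁.real univ + μ₂.real univ) * a s =
        μ₁.real univ * a s₁ + μ₂.real univ * a s₂ := by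
      rcases (add_nonneg hm₁ hm₂).eq_or_lt with h0 | h0
      · have z₁ : μ₁.real univ = 0 := by linarith
        have z₂ : μ₂.real univ = 0 := by linarith
        simp [z₁, z₂]
      · set t := μ₁.real univ / (μ₁.real univ + μ₂.real univ) with ht
        have ht0 : 0 ≤ t := div_nonneg hm₁ h0.le
        have ht1 : t ≤ 1 := by rw [ht, div_le_one h0]; linarith
        have htm : (μ₁.real univ + μ₂.real univ) * t = μ₁.real univ := by
          rw [ht]; field_simp
        have htm' : (μ₁.real univ + μ₂.real univ) * (1 - t) = μ₂.real univ := by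
          rw [mul_sub, htm]; ring
        have hsz : (s : V) = t • (s₁ : V) + (1 - t) • (s₂ : V) := by
          rw [SeparatingDual.eq_iff_forall_dual_eq (R := ℝ)]
          intro l
          have h3 := hs l
          rw [integral_add_measure (hli μ₁ l) (hli μ₂ l), hs₁ l, hs₂ l, hm] at h3
          apply mul_left_cancel₀ h0.ne'
          rw [← h3, map_add, map_smul, map_smul, smul_eq_mul, smul_eq_mul, mul_add, ← mul_assoc,
            ← mul_assoc, htm, htm']
        rw [ha s₁ s₂ s t ht0 ht1 hsz, mul_add, ← mul_assoc, ← mul_assoc, htm, htm']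
    rw [integral_add_measure (hai μ₁) (hai μ₂), hm, key, abs_le]
    constructor <;> linarith [e₁.1, e₁.2, e₂.1, e₂.2]
  have hbase : ∀ (μ : Measure X) [IsFiniteMeasure μ] (c : ℝ) (s : X),
      (∀ᵐ x ∂μ, |a x - a s| ≤ c) → |∫ x, a x ∂μ - μ.real univ * a s| ≤ c * μ.real univ := by
    intro μ _ c s hc
    have h1 : ∫ x, a x ∂μ - μ.real univ * a s = ∫ x, (a x - a s) ∂μ := by
      rw [integral_sub (hai μ) (integrable_const _), integral_const, smul_eq_mul]
    rw [h1]
    exact norm_integral_le_of_norm_le_const (μ := μ) (f := fun x => a x - a s) hc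
  have hM0 : 0 ≤ M := (abs_nonneg _).trans (hM r)
  have hfin : ∀ ε : ℝ, 0 < ε →
      |∫ x, a x ∂ν - ν.real univ * a r| ≤ ε * ν.real univ + 2 * M * ε := by
    intro ε hε
    let G : Set (Set X) := {K' | ∃ K : Set V, IsCompact K ∧ Convex ℝ K ∧
      (∀ y z : X, (y : V) ∈ K → (z : V) ∈ K → a y - a z ≤ ε) ∧ K' = Subtype.val ⁻¹' K}
    have hGm : ∀ K ∈ G, MeasurableSet K := by
      rintro _ ⟨K, hK, -, -, rfl⟩
      exact (hK.isClosed.preimage continuous_subtype_val).measurableSet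
    have hG : ∀ B : Set X, ν B ≠ 0 → ∃ K ∈ G, ν (K ∩ B) ≠ 0 := by
      intro B hB
      obtain ⟨K, h1, h2, h3, h4⟩ := exists_good hXv ha hu hlim ν hB hε
      exact ⟨_, ⟨K, h1, h2, h3, rfl⟩, h4⟩
    obtain ⟨L, hL, hLη⟩ := exists_good_list ν G hGm hG hε
    have hind : ∀ L : List (Set X), (∀ K ∈ L, K ∈ G) → ∀ (μ : Measure X) [IsFiniteMeasure μ],
        P μ (ε * μ.real univ + 2 * M * μ.real (⋃ K ∈ L, K)ᶜ) := by
      intro L
      induction L with
      | nil =>
        intro _ μ _ s _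
        have := hbase μ (2 * M) s (Eventually.of_forall fun x => by
          have := abs_sub (a x) (a s)
          linarith [hM x, hM s])
        have h2 : 0 ≤ ε * μ.real univ := mul_nonneg hε.le measureReal_nonneg
        simp only [List.not_mem_nil, iUnion_of_empty, iUnion_empty, compl_empty]
        linarith
      | cons K' L ih =>
        intro hL μ _
        have hK'G := hL K' List.mem_cons_self
        have hK'm := hGm K' hK'G
        obtain ⟨K, hK, hKv, hosc, hK'⟩ := hK'G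
        have h1 : P (μ.restrict K') (ε * (μ.restrict K').real univ) := by
          intro s hs
          by_cases h0 : μ.restrict K' = 0
          · simp [h0]
          · have hae : ∀ᵐ x : X ∂(μ.restrict K'), (x : V) ∈ K := by
              have := ae_restrict_mem (μ := μ) hK'm
              rw [hK'] at this
              rw [hK']
              exact this
            obtain ⟨s', hs'K, hs'⟩ := exists_bary (μ.restrict K') h0 hK hKv hae
            have : NeZero (μ.restrict K') := ⟨h0⟩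
            have hpos : 0 < (μ.restrict K').real univ := measureReal_univ_pos
            have hss : (s : V) = s' := by
              rw [SeparatingDual.eq_iff_forall_dual_eq (R := ℝ)]
              intro l
              apply mul_left_cancel₀ hpos.ne'
              rw [← hs l, hs' l]
            refine hbase _ ε s (hae.mono fun x hx => abs_le.2 ⟨?_, hosc x s hx (hss ▸ hs'K)⟩)
            have := hosc s x (hss ▸ hs'K) hx
            linarith
        have h2 := ih (fun K hK => hL K (List.mem_cons_of_mem _ hK)) (μ.restrict K'ᶜ)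
        have h3 := hadd _ _ _ _ h1 h2
        rw [Measure.restrict_add_restrict_compl hK'm] at h3
        have e1 : (μ.restrict K').real univ + (μ.restrict K'ᶜ).real univ = μ.real univ := by
          rw [← measureReal_add_apply, Measure.restrict_add_restrict_compl hK'm]
        have e2 : (μ.restrict K'ᶜ).real (⋃ K ∈ L, K)ᶜ = μ.real (⋃ K ∈ (K' :: L), K)ᶜ := by
          rw [measureReal_restrict_apply' hK'm.compl]
          congr 1
          ext x
          simp only [mem_inter_iff, mem_compl_iff, mem_iUnion, List.mem_cons, not_exists]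
          constructor
          · rintro ⟨h1, h2⟩ K'' (rfl | h)
            · exact h2
            · exact h1 K'' h
          · intro h
            exact ⟨fun K'' hK'' => h K'' (Or.inr hK''), h K' (Or.inl rfl)⟩
        intro s hs
        have := h3 s hs
        rw [e2] at this
        rw [← e1] at this ⊢
        linarith
    have := hind L hL ν r hr
    have h2 : 2 * M * ν.real (⋃ K ∈ L, K)ᶜ ≤ 2 * M * ε :=
      mul_le_mul_of_nonneg_left hLη (by linarith)
    linarith
  have h0 : |∫ x, a x ∂ν - ν.real univ * a r| ≤ 0 := by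
    refine le_of_forall_pos_le_add fun δ hδ => ?_
    have hm : 0 ≤ ν.real univ := measureReal_nonneg
    have hc : 0 < ν.real univ + 2 * M + 1 := by linarith
    have := hfin (δ / (ν.real univ + 2 * M + 1)) (div_pos hδ hc)
    have e : δ / (ν.real univ + 2 * M + 1) * (ν.real univ + 2 * M + 1) = δ := by field_simp
    have hp : 0 < δ / (ν.real univ + 2 * M + 1) := div_pos hδ hc
    nlinarith
  exact sub_eq_zero.1 (abs_nonpos_iff.1 h0)

/-- two regular measures with the same mass and the same moments integrate a bounded affine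
Baire-one function to the same value -/
theorem integral_eq_of_moments [CompactSpace X] [Nonempty X] [MeasurableSpace X] [BorelSpace X]
    (hXv : Convex ℝ X)
    {a : X → ℝ} (ha : ∀ (x y z : X) (t : ℝ), 0 ≤ t → t ≤ 1 →
      (z : V) = t • (x : V) + (1 - t) • (y : V) → a z = t * a x + (1 - t) * a y)
    {u : ℕ → X → ℝ} (hu : ∀ n, Continuous (u n))
    (hlim : ∀ x, Tendsto (fun n => u n x) atTop (𝓝 (a x))) {M : ℝ} (hM : ∀ x, |a x| ≤ M)
    (ν₁ ν₂ : Measure X) [IsFiniteMeasure ν₁] [ν₁.InnerRegular] [IsFiniteMeasure ν₂]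
    [ν₂.InnerRegular] (hm : ν₁.real univ = ν₂.real univ)
    (hl : ∀ l : V →L[ℝ] ℝ, ∫ x : X, l x ∂ν₁ = ∫ x : X, l x ∂ν₂) :
    ∫ x, a x ∂ν₁ = ∫ x, a x ∂ν₂ := by
  have hXc : IsCompact X := isCompact_iff_compactSpace.mpr inferInstance
  obtain ⟨r, hr⟩ : ∃ s : X, ∀ l : V →L[ℝ] ℝ, ∫ x : X, l x ∂ν₁ = ν₁.real univ * l s := by
    by_cases hμ : ν₁ = 0
    · exact ⟨Classical.arbitrary X, fun l => by simp [hμ]⟩
    · obtain ⟨s, hs, hs'⟩ := exists_bary ν₁ hμ hXc hXv (Eventually.of_forall fun x => x.2)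
      exact ⟨⟨s, hs⟩, hs'⟩
  rw [bary_formula hXv ha hu hlim hM ν₁ r hr,
    bary_formula hXv ha hu hlim hM ν₂ r (fun l => by rw [← hl l, hr l, hm]), hm]

end Pool.Agent.P.MP_8da836_an
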