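import Mathlib

/-!
Riesz representation and separation on a compact space, and approximation of the identity in the
mean for spaces with the approximation property.
-/

namespace Pool.Agent.P.MP_8da836_an

open Filter Topology MeasureTheory Set
open scoped CompactlySupported Pointwise

section Riesz

variable {K : Type*} [TopologicalSpace K] [CompactSpace K] [T2Space K] [MeasurableSpace K]
  [BorelSpace K]

theorem exists_measure_of_pos (φ : C(K, ℝ) →ₗ[ℝ] ℝ) (hφ : ∀ u : C(K, ℝ), 0 ≤ u → 0 ≤ φ u) :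
    ∃ μ : Measure K, IsFiniteMeasure μ ∧ μ.InnerRegular ∧ ∀ u : C(K, ℝ), ∫ k, u k ∂μ = φ u := by
  let Λ : C_c(K, ℝ) →ₚ[ℝ] ℝ :=
  { toFun g := φ g.toContinuousMap
    map_add' g g' := by rw [← map_add]; rfl
    map_smul' c g := by rw [RingHom.id_apply, ← map_smul]; rfl
    monotone' g g' hgg' := by
      have h : 0 ≤ g'.toContinuousMap - g.toContinuousMap := fun x => sub_nonneg.2 (hgg' x)
      have := hφ _ h
      rw [map_sub] at this
      exact sub_nonneg.1 this }
  refine ⟨RealRMK.rieszMeasure Λ, inferInstance, inferInstance, fun u => ?_⟩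
  let g' : C_c(K, ℝ) := ⟨u, HasCompactSupport.of_compactSpace _⟩
  exact RealRMK.integral_rieszMeasure Λ g'

theorem separate {D : Set C(K, ℝ)} (hD : Convex ℝ D) {δ : ℝ} (hδ : 0 < δ)
    (h : ∀ d ∈ D, ∃ k, δ ≤ d k) :
    ∃ μ : Measure K, IsFiniteMeasure μ ∧ ∃ c : ℝ, 0 < c ∧ ∀ d ∈ D, c ≤ ∫ k, d k ∂μ := by
  let U : Set C(K, ℝ) := {u | MapsTo u univ (Iio δ)}
  have hUo : IsOpen U := ContinuousMap.isOpen_setOfPred_mapsTo isCompact_univ isOpen_Iio
  have hUv : Convex ℝ U := by
    intro u hu v hv s t hs ht hst k _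
    exact (convex_Iio δ) (hu (mem_univ k)) (hv (mem_univ k)) hs ht hst
  have hdis : Disjoint U D := by
    rw [Set.disjoint_left]
    intro u hu hu'
    obtain ⟨k, hk⟩ := h u hu'
    exact absurd (hu (mem_univ k)) (not_lt.2 hk)
  obtain ⟨φ, c, h1, h2⟩ := geometric_hahn_banach_open hUv hUo hD hdis
  have hc : 0 < c := by
    have := h1 0 (fun k _ => by simpa using hδ)
    simpa using this
  have hpos : ∀ u : C(K, ℝ), 0 ≤ u → 0 ≤ φ u := by
    intro u hu
    by_contra hneg
    rw [not_le] at hneg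
    have ht : 0 ≤ c / (-φ u) := div_nonneg hc.le (by linarith)
    have := h1 (-(c / (-φ u)) • u) (fun k _ => by
      have h3 : 0 ≤ u k := hu k
      have h4 : 0 ≤ c / (-φ u) * u k := mul_nonneg ht h3
      simp only [ContinuousMap.smul_apply, smul_eq_mul, mem_Iio]
      linarith)
    rw [map_smul, smul_eq_mul] at this
    have e : -(c / (-φ u)) * φ u = c := by
      have : φ u ≠ 0 := hneg.ne
      field_simp
    linarith
  obtain ⟨μ, hμ, -, hμ'⟩ := exists_measure_of_pos (φ : C(K, ℝ) →ₗ[ℝ] ℝ) hpos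
  exact ⟨μ, hμ, c, hc, fun d hd => by rw [hμ' d]; exact h2 d hd⟩

end Riesz

theorem totallyBounded_of_near {E : Type*} [NormedAddCommGroup E] {S : Set E}
    (h : ∀ ε : ℝ, 0 < ε → ∃ C : Set E, TotallyBounded C ∧ ∀ y ∈ S, ∃ z ∈ C, dist y z < ε) :
    TotallyBounded S := by
  rw [Metric.totallyBounded_iff]
  intro ε hε
  obtain ⟨C, hC, hS⟩ := h (ε / 2) (by positivity)
  obtain ⟨t, ht, hCt⟩ := Metric.totallyBounded_iff.1 hC (ε / 2) (by positivity)
  refine ⟨t, ht, fun y hy => ?_⟩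
  obtain ⟨z, hz, hyz⟩ := hS y hy
  obtain ⟨w, hw, hzw⟩ := mem_iUnion₂.1 (hCt hz)
  refine mem_iUnion₂.2 ⟨w, hw, ?_⟩
  rw [Metric.mem_ball] at hzw ⊢
  linarith [dist_triangle y z w]

/-- with the approximation property, the identity is approximated in the mean by finite rank
operators along a bounded pointwise limit of continuous maps -/
theorem approx_mean {K : Type*} [TopologicalSpace K] [CompactSpace K] [T2Space K]
    [MeasurableSpace K] [BorelSpace K] {E : Type*} [NormedAddCommGroup E] [NormedSpace ℝ E]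
    [CompleteSpace E] (μ : Measure K) [IsFiniteMeasure μ] {p : (E →L[ℝ] E) → Prop}
    (hE : ∀ C : Set E, IsCompact C → ∀ ε : ℝ, 0 < ε → ∃ T, p T ∧ ∀ y ∈ C, ‖T y - y‖ < ε)
    {F : K → E} {u : ℕ → K → E} (hu : ∀ n, Continuous (u n))
    (hlim : ∀ k, Tendsto (fun n => u n k) atTop (𝓝 (F k))) (hF : ∀ k, ‖F k‖ ≤ 1)
    {ε : ℝ} (hε : 0 < ε) : ∃ T, p T ∧ ∫ k, ‖T (F k) - F k‖ ∂μ ≤ ε := by
  have hum : ∀ n, StronglyMeasurable (u n) := fun n =>
    (hu n).stronglyMeasurable_of_hasCompactSupport (HasCompactSupport.of_compactSpace _)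
  have hFm : StronglyMeasurable F :=
    stronglyMeasurable_of_tendsto atTop hum (tendsto_pi_nhds.2 hlim)
  have heg : ∀ n : ℕ, ∃ t, MeasurableSet t ∧ μ t ≤ ENNReal.ofReal ((1 / 4 : ℝ) ^ n) ∧
      TendstoUniformlyOn u F atTop tᶜ := fun n =>
    tendstoUniformlyOn_of_ae_tendsto' hum hFm (Eventually.of_forall hlim) (by positivity)
  choose t htm htμ htu using heg
  have htr : ∀ n, μ.real (t n) ≤ (1 / 4 : ℝ) ^ n := fun n =>
    ENNReal.toReal_le_of_le_ofReal (by positivity) (htμ n)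
  have htb : ∀ n, TotallyBounded (F '' (t n)ᶜ) := by
    intro n
    refine totallyBounded_of_near fun η hη => ?_
    obtain ⟨m, hm⟩ := (Metric.tendstoUniformlyOn_iff.1 (htu n) η hη).exists
    refine ⟨range (u m), (isCompact_range (hu m)).totallyBounded, ?_⟩
    rintro _ ⟨k, hk, rfl⟩
    exact ⟨u m k, mem_range_self k, hm k hk⟩
  let S : Set E := ⋃ n : ℕ, (fun y => (1 / 2 : ℝ) ^ n • y) '' (F '' (t n)ᶜ)
  have hS : TotallyBounded S := by
    refine totallyBounded_of_near fun η hη => ?_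
    obtain ⟨N, hN⟩ := exists_pow_lt_of_lt_one hη (show (1 / 2 : ℝ) < 1 by norm_num)
    refine ⟨{0} ∪ ⋃ n ∈ Finset.range N, (fun y => (1 / 2 : ℝ) ^ n • y) '' (F '' (t n)ᶜ), ?_, ?_⟩
    · refine (finite_singleton _).totallyBounded.union ?_
      refine (totallyBounded_biUnion (Finset.range N).finite_toSet).2 fun n _ => ?_
      exact (htb n).image (uniformContinuous_const_smul _)
    · intro y hy
      obtain ⟨n, _, ⟨k, hk, rfl⟩, rfl⟩ := mem_iUnion.1 hy
      by_cases hn : n < N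
      · refine ⟨_, Or.inr (mem_iUnion₂.2 ⟨n, Finset.mem_range.2 hn, _, ⟨k, hk, rfl⟩, rfl⟩), ?_⟩
        simpa using hη
      · refine ⟨0, Or.inl rfl, ?_⟩
        rw [dist_zero_right, norm_smul, Real.norm_eq_abs, abs_of_pos (by positivity)]
        have h1 : (1 / 2 : ℝ) ^ n ≤ (1 / 2 : ℝ) ^ N :=
          pow_le_pow_of_le_one (by norm_num) (by norm_num) (not_lt.1 hn)
        have h2 : (1 / 2 : ℝ) ^ n * ‖F k‖ ≤ (1 / 2 : ℝ) ^ n :=
          mul_le_of_le_one_right (by positivity) (hF k)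
        linarith
  have hC : IsCompact (closure S) := hS.closure.isCompact_of_isClosed isClosed_closure
  have hm0 : 0 ≤ μ.real univ := measureReal_nonneg
  set ε' : ℝ := ε / (μ.real univ + 4) with hε'
  have hε'0 : 0 < ε' := by positivity
  obtain ⟨T, hT, hTC⟩ := hE _ hC ε' hε'0
  refine ⟨T, hT, ?_⟩
  have hb : ∀ n k, k ∉ t n → ‖T (F k) - F k‖ ≤ ε' * 2 ^ n := by
    intro n k hk
    have h1 := hTC ((1 / 2 : ℝ) ^ n • F k)
      (subset_closure (mem_iUnion.2 ⟨n, _, ⟨k, hk, rfl⟩, rfl⟩))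
    rw [map_smul, ← smul_sub, norm_smul, Real.norm_eq_abs, abs_of_pos (by positivity)] at h1
    have h2 : (1 / 2 : ℝ) ^ n * 2 ^ n = 1 := by rw [← mul_pow]; norm_num
    have h3 : (0 : ℝ) < 2 ^ n := by positivity
    calc ‖T (F k) - F k‖ = ((1 / 2 : ℝ) ^ n * ‖T (F k) - F k‖) * 2 ^ n := by
          rw [mul_right_comm, h2, one_mul]
      _ ≤ ε' * 2 ^ n := mul_le_mul_of_nonneg_right h1.le h3.le
  have hb' : ∀ k, ‖T (F k) - F k‖ ≤ ‖T‖ + 1 := by
    intro k
    have h1 := norm_sub_le (T (F k)) (F k)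
    have h2 := T.le_opNorm (F k)
    have h3 : ‖T‖ * ‖F k‖ ≤ ‖T‖ := mul_le_of_le_one_right (norm_nonneg _) (hF k)
    linarith [hF k]
  have hpt : ∀ (n : ℕ) (k : K), k ∉ t n → ‖T (F k) - F k‖ ≤
      ε' + ∑ j ∈ Finset.range n, (t j).indicator (fun _ => ε' * 2 ^ (j + 1)) k := by
    intro n
    induction n with
    | zero => intro k hk; simpa using hb 0 k hk
    | succ n ih =>
      intro k hk
      rw [Finset.sum_range_succ]
      have hnn : 0 ≤ ∑ j ∈ Finset.range n, (t j).indicator (fun _ => ε' * 2 ^ (j + 1)) k :=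
        Finset.sum_nonneg fun j _ => indicator_nonneg (fun _ _ => by positivity) _
      by_cases hk' : k ∈ t n
      · rw [indicator_of_mem hk']
        linarith [hb (n + 1) k hk]
      · rw [indicator_of_notMem hk']
        linarith [ih k hk']
  have hGm : StronglyMeasurable fun k => ‖T (F k) - F k‖ :=
    ((T.continuous.comp_stronglyMeasurable hFm).sub hFm).norm
  have hGi : Integrable (fun k => ‖T (F k) - F k‖) μ :=
    Integrable.of_bound hGm.aestronglyMeasurable (‖T‖ + 1)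
      (Eventually.of_forall fun k => by rw [norm_norm]; exact hb' k)
  have hest : ∀ n : ℕ, ∫ k, ‖T (F k) - F k‖ ∂μ ≤ ε + (‖T‖ + 1) * (1 / 4 : ℝ) ^ n := by
    intro n
    have hind : ∀ (j : ℕ) (c : ℝ), Integrable ((t j).indicator fun _ : K => c) μ := fun j c =>
      (integrable_const c).indicator (htm j)
    have hsumi : Integrable (fun k => ∑ j ∈ Finset.range n,
        (t j).indicator (fun _ => ε' * 2 ^ (j + 1)) k) μ :=
      integrable_finsetSum _ fun j _ => hind j _
    have hsumi' : Integrable (fun k => ε' + ∑ j ∈ Finset.range n,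
        (t j).indicator (fun _ => ε' * 2 ^ (j + 1)) k) μ := (integrable_const _).add hsumi
    have h1 : ∫ k, ‖T (F k) - F k‖ ∂μ ≤ ∫ k, (ε' + ∑ j ∈ Finset.range n,
        (t j).indicator (fun _ => ε' * 2 ^ (j + 1)) k +
        (t n).indicator (fun _ => ‖T‖ + 1) k) ∂μ := by
      refine integral_mono hGi (((integrable_const _).add hsumi).add (hind n _)) fun k => ?_
      have hnn : 0 ≤ ∑ j ∈ Finset.range n, (t j).indicator (fun _ => ε' * 2 ^ (j + 1)) k :=
        Finset.sum_nonneg fun j _ => indicator_nonneg (fun _ _ => by positivity) _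
      by_cases hk : k ∈ t n
      · simp only [indicator_of_mem hk]
        linarith [hb' k]
      · simp only [indicator_of_notMem hk]
        linarith [hpt n k hk]
    rw [integral_add hsumi' (hind n _),
      integral_add (integrable_const _) hsumi, integral_finsetSum _ (fun j _ => hind j _),
      integral_const, integral_indicator_const _ (htm n)] at h1
    simp only [integral_indicator_const _ (htm _), smul_eq_mul] at h1
    have h2 : ∀ n : ℕ, ∑ j ∈ Finset.range n, μ.real (t j) * (ε' * 2 ^ (j + 1)) ≤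
        ε' * (4 - 4 * (1 / 2 : ℝ) ^ n) := by
      intro n
      induction n with
      | zero => simp
      | succ n ih =>
        rw [Finset.sum_range_succ]
        have e1 : μ.real (t n) * (ε' * 2 ^ (n + 1)) ≤ (1 / 4 : ℝ) ^ n * (ε' * 2 ^ (n + 1)) :=
          mul_le_mul_of_nonneg_right (htr n) (by positivity)
        have e2 : (1 / 4 : ℝ) ^ n * 2 ^ n = (1 / 2 : ℝ) ^ n := by rw [← mul_pow]; norm_num
        have e3 : (1 / 4 : ℝ) ^ n * (ε' * 2 ^ (n + 1)) = ε' * (2 * (1 / 2 : ℝ) ^ n) := by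
          rw [← e2, pow_succ]; ring
        have e4 : ε' * (4 - 4 * (1 / 2 : ℝ) ^ (n + 1)) =
            ε' * (4 - 4 * (1 / 2 : ℝ) ^ n) + ε' * (2 * (1 / 2 : ℝ) ^ n) := by
          rw [pow_succ]; ring
        linarith
    have h3 : ε' * (4 - 4 * (1 / 2 : ℝ) ^ n) ≤ ε' * 4 := by
      have : (0 : ℝ) ≤ (1 / 2 : ℝ) ^ n := by positivity
      nlinarith
    have h4 : μ.real (t n) * (‖T‖ + 1) ≤ (1 / 4 : ℝ) ^ n * (‖T‖ + 1) :=
      mul_le_mul_of_nonneg_right (htr n) (by positivity)
    have h5 : μ.real univ * ε' + ε' * 4 = ε := by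
      rw [hε']; field_simp
    linarith [h2 n]
  have hlim' : Tendsto (fun n : ℕ => ε + (‖T‖ + 1) * (1 / 4 : ℝ) ^ n) atTop
      (𝓝 (ε + (‖T‖ + 1) * 0)) :=
    ((tendsto_pow_atTop_nhds_zero_of_lt_one (by norm_num) (by norm_num)).const_mul _).const_add _
  have := ge_of_tendsto' hlim' hest
  simpa using this

end Pool.Agent.P.MP_8da836_an
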