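import Pool.Agent.P.MP_8da836_an.Bary
import Pool.Agent.P.MP_8da836_an.Sep

/-!
Affine Baire-one maps into the unit ball of a space with the approximation property.
-/

namespace Pool.Agent.P.MP_8da836_an

open Filter Topology MeasureTheory Set
open scoped Pointwise

variable {V : Type*} [AddCommGroup V] [Module ℝ V] [TopologicalSpace V] [IsTopologicalAddGroup V]
  [ContinuousSMul ℝ V] [LocallyConvexSpace ℝ V] [T2Space V] {X : Set V}

/-- a weight killing the continuous affine functions kills the bounded affine Baire-one ones -/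
theorem weight_kills [CompactSpace X] [Nonempty X] (hXv : Convex ℝ X)
    {K : Type*} [TopologicalSpace K] [CompactSpace K] [MeasurableSpace K] [BorelSpace K]
    (μ : Measure K) [IsFiniteMeasure μ] (π : C(K, X)) (w : C(K, ℝ))
    (h1 : ∫ k, w k ∂μ = 0) (hl : ∀ l : V →L[ℝ] ℝ, ∫ k, w k * l (π k) ∂μ = 0)
    {a : X → ℝ} (ha : ∀ (x y z : X) (t : ℝ), 0 ≤ t → t ≤ 1 →
      (z : V) = t • (x : V) + (1 - t) • (y : V) → a z = t * a x + (1 - t) * a y)
    {u : ℕ → X → ℝ} (hu : ∀ n, Continuous (u n))
    (hlim : ∀ x, Tendsto (fun n => u n x) atTop (𝓝 (a x))) {M : ℝ} (hM : ∀ n x, |u n x| ≤ M) :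
    ∫ k, w k * a (π k) ∂μ = 0 := by
  borelize ↥X
  have hMa : ∀ x, |a x| ≤ M := fun x =>
    le_of_tendsto' (hlim x).abs fun n => hM n x
  have ham : Measurable a := measurable_of_tendsto_metrizable (fun n => (hu n).measurable)
    (tendsto_pi_nhds.2 hlim)
  have hci : ∀ g : K → ℝ, Continuous g → Integrable g μ := fun g hg =>
    hg.integrable_of_hasCompactSupport (HasCompactSupport.of_compactSpace _)
  -- the measure on X attached to a nonnegative weight
  have hν : ∀ v : C(K, ℝ), (∀ k, 0 ≤ v k) → ∃ ν : Measure X, IsFiniteMeasure ν ∧ ν.InnerRegular ∧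
      (∀ g : C(X, ℝ), ∫ x, g x ∂ν = ∫ k, v k * g (π k) ∂μ) ∧
      ∫ x, a x ∂ν = ∫ k, v k * a (π k) ∂μ := by
    intro v hv
    let φ : C(X, ℝ) →ₗ[ℝ] ℝ :=
      { toFun := fun g => ∫ k, v k * g (π k) ∂μ
        map_add' := fun g g' => by
          simp only [ContinuousMap.add_apply, mul_add]
          exact integral_add (hci _ (by fun_prop)) (hci _ (by fun_prop))
        map_smul' := fun c g => by
          simp only [ContinuousMap.smul_apply, smul_eq_mul, RingHom.id_apply]
          rw [← integral_const_mul]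
          congr 1; ext k; ring }
    obtain ⟨ν, hν1, hν2, hν3⟩ := exists_measure_of_pos φ
      (fun g hg => integral_nonneg fun k => mul_nonneg (hv k) (hg (π k)))
    refine ⟨ν, hν1, hν2, hν3, ?_⟩
    have t1 : Tendsto (fun n => ∫ x, u n x ∂ν) atTop (𝓝 (∫ x, a x ∂ν)) :=
      tendsto_integral_of_dominated_convergence (fun _ => M)
        (fun n => (hu n).aestronglyMeasurable) (integrable_const _)
        (fun n => Eventually.of_forall fun x => hM n x) (Eventually.of_forall hlim)
    have t2 : Tendsto (fun n => ∫ k, v k * u n (π k) ∂μ) atTop (𝓝 (∫ k, v k * a (π k) ∂μ)) := by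
      refine tendsto_integral_of_dominated_convergence (fun k => v k * M)
        (fun n => (v.continuous.mul ((hu n).comp π.continuous)).aestronglyMeasurable)
        (hci _ (by fun_prop)) (fun n => Eventually.of_forall fun k => ?_)
        (Eventually.of_forall fun k => (hlim (π k)).const_mul _)
      rw [norm_mul, Real.norm_eq_abs, Real.norm_eq_abs, abs_of_nonneg (hv k)]
      exact mul_le_mul_of_nonneg_left (hM n _) (hv k)
    have t3 : (fun n => ∫ x, u n x ∂ν) = fun n => ∫ k, v k * u n (π k) ∂μ := by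
      ext n
      exact hν3 ⟨u n, hu n⟩
    rw [t3] at t1
    exact tendsto_nhds_unique t1 t2
  let vp : C(K, ℝ) := ⟨fun k => max (w k) 0, w.continuous.max continuous_const⟩
  let vm : C(K, ℝ) := ⟨fun k => max (-w k) 0, w.continuous.neg.max continuous_const⟩
  have hvw : ∀ k, vp k - vm k = w k := fun k => max_zero_sub_max_neg_zero_eq_self (w k)
  obtain ⟨ν₁, i1, i2, h13, h14⟩ := hν vp fun k => le_max_right _ _
  obtain ⟨ν₂, j1, j2, h23, h24⟩ := hν vm fun k => le_max_right _ _
  have hdiff : ∀ g : C(X, ℝ), ∫ k, w k * g (π k) ∂μ = 0 → ∫ x, g x ∂ν₁ = ∫ x, g x ∂ν₂ := by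
    intro g hg
    rw [h13, h23, ← sub_eq_zero, ← integral_sub (hci _ (by fun_prop)) (hci _ (by fun_prop)), ← hg]
    congr 1; ext k; rw [← sub_mul, hvw]
  have hm : ν₁.real univ = ν₂.real univ := by
    have := hdiff 1 (by simpa using h1)
    simpa using this
  have hl' : ∀ l : V →L[ℝ] ℝ, ∫ x : X, l x ∂ν₁ = ∫ x : X, l x ∂ν₂ := fun l =>
    hdiff ⟨fun x => l x, l.continuous.comp continuous_subtype_val⟩ (hl l)
  have key := integral_eq_of_moments hXv ha hu hlim hMa ν₁ ν₂ hm hl'
  have hai : ∀ v : C(K, ℝ), Integrable (fun k => v k * a (π k)) μ := fun v =>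
    (hci _ v.continuous).mul_bdd (c := M)
      (ham.comp π.continuous.measurable).aestronglyMeasurable
      (Eventually.of_forall fun k => hMa _)
  rw [h14, h24, ← sub_eq_zero, ← integral_sub (hai vp) (hai vm)] at key
  rw [← key]
  congr 1; ext k; rw [← sub_mul, hvw]

theorem finite_rank_repr {E : Type*} [NormedAddCommGroup E] [NormedSpace ℝ E] (T : E →L[ℝ] E)
    (hT : FiniteDimensional ℝ (LinearMap.range (T : E →ₗ[ℝ] E))) :
    ∃ (n : ℕ) (ψ : Fin n → (E →L[ℝ] ℝ)) (y : Fin n → E), ∀ e, T e = ∑ j, ψ j e • y j := by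
  let R := LinearMap.range (T : E →ₗ[ℝ] E)
  let b := Module.finBasis ℝ R
  let T' : E →L[ℝ] R := T.codRestrict R fun e => LinearMap.mem_range_self _ e
  refine ⟨_, fun j => (LinearMap.toContinuousLinearMap (b.coord j)).comp T',
    fun j => (b j : E), fun e => ?_⟩
  have h := congrArg (fun r : R => (r : E)) (b.sum_repr (T' e))
  simp only [Submodule.coe_sum, Submodule.coe_smul] at h
  exact h.symm

theorem main_aux [CompactSpace X] [Nonempty X] (hXv : Convex ℝ X)
    {E : Type*} [NormedAddCommGroup E] [NormedSpace ℝ E] [CompleteSpace E]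
    {B : Type*} [TopologicalSpace B] [CompactSpace B] [T2Space B] (ev : B → (E →L[ℝ] ℝ))
    (hev : ∀ b, ‖ev b‖ ≤ 1) (hevc : ∀ y, Continuous fun b => ev b y)
    (hnorm : ∀ y, ∃ b, ev b y = ‖y‖)
    (hE : ∀ C : Set E, IsCompact C → ∀ ε : ℝ, 0 < ε → ∃ T : E →L[ℝ] E,
      FiniteDimensional ℝ (LinearMap.range (T : E →ₗ[ℝ] E)) ∧ ∀ y ∈ C, ‖T y - y‖ < ε)
    {f : X → E} (hf : ∀ (x y z : X) (t : ℝ), 0 ≤ t → t ≤ 1 →
      (z : V) = t • (x : V) + (1 - t) • (y : V) → f z = t • f x + (1 - t) • f y)
    {u : ℕ → X → E} (hu : ∀ n, Continuous (u n)) (hu1 : ∀ n x, ‖u n x‖ ≤ 1)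
    (hlim : ∀ x, Tendsto (fun n => u n x) atTop (𝓝 (f x))) :
    ∃ g : ℕ → X → E, (∀ n, Continuous (g n)) ∧
      (∀ n, ∀ (x y z : X) (t : ℝ), 0 ≤ t → t ≤ 1 →
        (z : V) = t • (x : V) + (1 - t) • (y : V) → g n z = t • g n x + (1 - t) • g n y) ∧
      (∀ n x, ‖g n x‖ ≤ 1) ∧ ∀ x, Tendsto (fun n => g n x) atTop (𝓝 (f x)) := by
  have hf1 : ∀ x, ‖f x‖ ≤ 1 := fun x => le_of_tendsto' (hlim x).norm fun n => hu1 n x
  have hle : ∀ b y, |ev b y| ≤ ‖y‖ := fun b y =>
    ((ev b).le_opNorm y).trans (mul_le_of_le_one_left (norm_nonneg _) (hev b))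
  -- joint continuity of the pairing
  have hjoint : Continuous fun p : E × B => ev p.2 p.1 := by
    rw [continuous_iff_continuousAt]
    rintro ⟨y, b⟩
    have e1 : Tendsto (fun p : E × B => ev p.2 (p.1 - y)) (𝓝 (y, b)) (𝓝 0) := by
      refine squeeze_zero_norm (a := fun p : E × B => ‖p.1 - y‖) (fun p => hle _ _) ?_
      have : Continuous fun p : E × B => ‖p.1 - y‖ := by fun_prop
      simpa using this.tendsto (y, b)
    have e2 : Tendsto (fun p : E × B => ev p.2 y) (𝓝 (y, b)) (𝓝 (ev b y)) :=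
      ((hevc y).comp continuous_snd).tendsto (y, b)
    have := e1.add e2
    simpa [ContinuousAt] using this
  let ι : C(X, E) →ₗ[ℝ] C(X × B, ℝ) :=
    { toFun := fun h => ⟨fun k => ev k.2 (h k.1),
        hjoint.comp ((h.continuous.comp continuous_fst).prodMk continuous_snd)⟩
      map_add' := fun h h' => by ext k; simp
      map_smul' := fun c h => by ext k; simp }
  have hι : ∀ h k, ι h k = ev k.2 (h k.1) := fun _ _ => rfl
  let A : Submodule ℝ C(X, E) :=
    { carrier := {g | ∀ (x y z : X) (t : ℝ), 0 ≤ t → t ≤ 1 →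
        (z : V) = t • (x : V) + (1 - t) • (y : V) → g z = t • g x + (1 - t) • g y}
      add_mem' := fun {g g'} hg hg' x y z t h0 h1 hz => by
        simp only [ContinuousMap.add_apply, hg x y z t h0 h1 hz, hg' x y z t h0 h1 hz, smul_add]
        abel
      zero_mem' := fun x y z t _ _ _ => by simp
      smul_mem' := fun c g hg x y z t h0 h1 hz => by
        simp only [ContinuousMap.smul_apply, hg x y z t h0 h1 hz, smul_add, smul_comm c] }
  let U : ℕ → C(X, E) := fun n => ⟨u n, hu n⟩
  borelize (↥X × B)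
  -- a measure killing the continuous affine maps kills f
  have hkill : ∀ (μ : Measure (X × B)) [IsFiniteMeasure μ], (∀ g ∈ A, ∫ k, ι g k ∂μ = 0) →
      ∫ k, ev k.2 (f k.1) ∂μ = 0 := by
    intro μ _ hμ
    have hrank : ∀ (ψ : E →L[ℝ] ℝ) (y : E), ∫ k : X × B, ev k.2 y * ψ (f k.1) ∂μ = 0 := by
      intro ψ y
      refine weight_kills hXv μ ContinuousMap.fst
        ⟨fun k => ev k.2 y, (hevc y).comp continuous_snd⟩ ?_ ?_ (a := fun x => ψ (f x)) ?_
        (u := fun n x => ψ (u n x)) (fun n => ψ.continuous.comp (hu n))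
        (fun x => (ψ.continuous.tendsto _).comp (hlim x)) (M := ‖ψ‖) ?_
      · refine hμ (ContinuousMap.const X y) ?_
        intro x y' z t _ _ _
        simp only [ContinuousMap.const_apply]
        rw [← add_smul]; simp
      · intro l
        have := hμ ⟨fun x => l x • y, (l.continuous.comp continuous_subtype_val).smul
          continuous_const⟩ (by
            intro x y' z t _ _ hz
            simp only [ContinuousMap.coe_mk]
            rw [hz, map_add, map_smul, map_smul, add_smul, smul_assoc, smul_assoc])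
        rw [← this]
        congr 1; ext k
        simp [hι, mul_comm]
      · intro x y' z t h0 h1 hz
        simp only [hf x y' z t h0 h1 hz, map_add, map_smul, smul_eq_mul]
      · intro n x
        exact (ψ.le_opNorm _).trans (mul_le_of_le_one_right (norm_nonneg _) (hu1 n x))
    have hmeas : ∀ S : E →L[ℝ] E, Integrable (fun k : X × B => ev k.2 (S (f k.1))) μ := by
      intro S
      have hm : Measurable fun k : X × B => ev k.2 (S (f k.1)) := by
        refine measurable_of_tendsto_metrizable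
          (f := fun n (k : X × B) => ev k.2 (S (u n k.1))) (fun n => ?_) ?_
        · exact (hjoint.comp ((S.continuous.comp ((hu n).comp continuous_fst)).prodMk
            continuous_snd)).measurable
        · exact tendsto_pi_nhds.2 fun k =>
            (((ev k.2).continuous.comp S.continuous).tendsto _).comp (hlim k.1)
      refine Integrable.of_bound hm.aestronglyMeasurable ‖S‖ (Eventually.of_forall fun k => ?_)
      exact (hle _ _).trans ((S.le_opNorm _).trans
        (mul_le_of_le_one_right (norm_nonneg _) (hf1 _)))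
    have hfin : ∀ T : E →L[ℝ] E, FiniteDimensional ℝ (LinearMap.range (T : E →ₗ[ℝ] E)) →
        ∫ k : X × B, ev k.2 (T (f k.1)) ∂μ = 0 := by
      intro T hT
      obtain ⟨n, ψ, y, hrep⟩ := finite_rank_repr T hT
      have e : (fun k : X × B => ev k.2 (T (f k.1))) =
          fun k => ∑ j, ev k.2 (y j) * ψ j (f k.1) := by
        ext k
        rw [hrep, map_sum]
        refine Finset.sum_congr rfl fun j _ => ?_
        rw [map_smul, smul_eq_mul, mul_comm]
      rw [e, integral_finsetSum]
      · exact Finset.sum_eq_zero fun j _ => hrank _ _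
      · intro j _
        have := hmeas ((ψ j).smulRight (y j))
        simpa [mul_comm] using this
    have hsmall : ∀ ε : ℝ, 0 < ε → |∫ k : X × B, ev k.2 (f k.1) ∂μ| ≤ ε := by
      intro ε hε
      obtain ⟨T, hT, hTε⟩ := approx_mean μ hE (F := fun k : X × B => f k.1)
        (u := fun n k => u n k.1) (fun n => (hu n).comp continuous_fst) (fun k => hlim k.1)
        (fun k => hf1 k.1) hε
      have e1 : ∫ k : X × B, ev k.2 (f k.1) ∂μ =
          -∫ k : X × B, ev k.2 ((T - ContinuousLinearMap.id ℝ E) (f k.1)) ∂μ := by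
        have i1 := hmeas T
        have i2 := hmeas (ContinuousLinearMap.id ℝ E)
        simp only [_root_.sub_apply, map_sub]
        rw [integral_sub i1 i2, hfin T hT]
        simp
      rw [e1, abs_neg]
      refine le_trans ?_ hTε
      have hum : StronglyMeasurable fun k : X × B => f k.1 :=
        stronglyMeasurable_of_tendsto atTop (f := fun n (k : X × B) => u n k.1)
          (fun n => ((hu n).comp continuous_fst).stronglyMeasurable_of_hasCompactSupport
            (HasCompactSupport.of_compactSpace _))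
          (tendsto_pi_nhds.2 fun k => hlim k.1)
      refine norm_integral_le_of_norm_le
        (f := fun k : X × B => ev k.2 ((T - ContinuousLinearMap.id ℝ E) (f k.1))) ?_
        (Eventually.of_forall fun k => hle _ _)
      refine Integrable.of_bound
        ((T.continuous.comp_stronglyMeasurable hum).sub hum).norm.aestronglyMeasurable
        ‖T - ContinuousLinearMap.id ℝ E‖ (Eventually.of_forall fun k => ?_)
      rw [norm_norm]
      exact ((T - ContinuousLinearMap.id ℝ E).le_opNorm _).trans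
        (mul_le_of_le_one_right (norm_nonneg _) (hf1 _))
    have : |∫ k : X × B, ev k.2 (f k.1) ∂μ| ≤ 0 :=
      le_of_forall_pos_le_add fun ε hε => by simpa using hsmall ε hε
    exact abs_nonpos_iff.1 this
  -- convex combinations of tails are uniformly close to affine maps
  have hclose : ∀ (n : ℕ) (δ : ℝ), 0 < δ → ∃ h ∈ convexHull ℝ (U '' Ici n), ∃ g ∈ A,
      ∀ x, ‖h x - g x‖ < δ := by
    intro n δ hδ
    by_contra hcon
    push Not at hcon
    let D : Set C(X × B, ℝ) := ι '' (convexHull ℝ (U '' Ici n) - (A : Set C(X, E)))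
    have hD : Convex ℝ D := ((convex_convexHull ℝ _).sub A.convex).linear_image ι
    obtain ⟨μ, hμ, c, hc, hcD⟩ := separate hD hδ (by
      rintro _ ⟨_, ⟨h, hh, g, hg, rfl⟩, rfl⟩
      obtain ⟨x, hx⟩ := hcon h hh g hg
      obtain ⟨b, hb⟩ := hnorm (h x - g x)
      refine ⟨(x, b), ?_⟩
      rw [hι]
      simp only [ContinuousMap.sub_apply]
      rw [hb]; exact hx)
    have hci : ∀ g : C(X × B, ℝ), Integrable g μ := fun g =>
      g.continuous.integrable_of_hasCompactSupport (HasCompactSupport.of_compactSpace _)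
    have hmem : ∀ m, n ≤ m → U m ∈ convexHull ℝ (U '' Ici n) := fun m hm =>
      subset_convexHull ℝ _ ⟨m, hm, rfl⟩
    have hA0 : ∀ g ∈ A, ∫ k, ι g k ∂μ = 0 := by
      intro g hg
      by_contra hne
      set s := ∫ k, ι g k ∂μ with hs
      set r := ∫ k, ι (U n) k ∂μ with hr
      have := hcD (ι (U n - (r / s) • g))
        ⟨_, ⟨U n, hmem n le_rfl, (r / s) • g, A.smul_mem _ hg, rfl⟩, rfl⟩
      rw [map_sub, map_smul] at this
      simp only [ContinuousMap.sub_apply, ContinuousMap.smul_apply, smul_eq_mul] at this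
      rw [integral_sub (hci _) ((hci _).const_mul _), integral_const_mul, ← hs, ← hr,
        div_mul_cancel₀ _ hne] at this
      linarith
    have h0 := hkill μ hA0
    have ht : Tendsto (fun m => ∫ k, ι (U m) k ∂μ) atTop (𝓝 (∫ k, ev k.2 (f k.1) ∂μ)) :=
      tendsto_integral_of_dominated_convergence (fun _ => (1 : ℝ))
        (fun m => (ι (U m)).continuous.aestronglyMeasurable) (integrable_const _)
        (fun m => Eventually.of_forall fun k => (hle _ _).trans (hu1 m k.1))
        (Eventually.of_forall fun k => ((ev k.2).continuous.tendsto _).comp (hlim k.1))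
    rw [h0] at ht
    have : c ≤ 0 := by
      refine ge_of_tendsto ht (eventually_atTop.2 ⟨n, fun m hm => ?_⟩)
      exact hcD _ ⟨U m, ⟨U m, hmem m hm, 0, A.zero_mem, sub_zero _⟩, rfl⟩
    linarith
  have hδ : ∀ n : ℕ, (0 : ℝ) < 1 / ((n : ℝ) + 1) := fun n => by positivity
  choose h hh g hg hhg using fun n => hclose n _ (hδ n)
  have hball : ∀ (n : ℕ) (x : X) (y : E) (r : ℝ), (∀ m, n ≤ m → ‖u m x - y‖ ≤ r) →
      ‖h n x - y‖ ≤ r := by
    intro n x y r hr
    have hcv : Convex ℝ {v : C(X, E) | v x ∈ Metric.closedBall y r} :=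
      (convex_closedBall y r).linear_preimage
        ((ContinuousMap.evalCLM ℝ x : C(X, E) →L[ℝ] E) : C(X, E) →ₗ[ℝ] E)
    have := convexHull_min (s := U '' Ici n) (by
      rintro _ ⟨m, hm, rfl⟩
      exact mem_closedBall_iff_norm.2 (hr m hm)) hcv (hh n)
    exact mem_closedBall_iff_norm.1 this
  have hδ0 : Tendsto (fun n : ℕ => (1 : ℝ) / ((n : ℝ) + 1)) atTop (𝓝 0) :=
    tendsto_one_div_add_atTop_nhds_zero_nat
  refine ⟨fun n x => (1 + 1 / ((n : ℝ) + 1))⁻¹ • g n x,
    fun n => (g n).continuous.const_smul _, fun n => A.smul_mem _ (hg n), fun n x => ?_,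
    fun x => ?_⟩
  · have h1 : ‖h n x‖ ≤ 1 := by
      simpa using hball n x 0 1 (fun m _ => by simpa using hu1 m x)
    have h2 : ‖g n x‖ ≤ 1 + 1 / ((n : ℝ) + 1) := by
      have := norm_sub_norm_le (g n x) (h n x)
      rw [norm_sub_rev] at this
      linarith [hhg n x]
    have h3 : (0 : ℝ) < 1 + 1 / ((n : ℝ) + 1) := by positivity
    rw [norm_smul, Real.norm_eq_abs, abs_of_pos (inv_pos.2 h3), inv_mul_le_iff₀ h3, mul_one]
    exact h2
  · have t1 : Tendsto (fun n => h n x) atTop (𝓝 (f x)) := by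
      rw [Metric.tendsto_atTop]
      intro ε hε
      obtain ⟨N, hN⟩ := Metric.tendsto_atTop.1 (hlim x) (ε / 2) (by positivity)
      refine ⟨N, fun n hn => ?_⟩
      have := hball n x (f x) (ε / 2) fun m hm => by
        have := hN m (hn.trans hm)
        rw [dist_eq_norm] at this
        exact this.le
      rw [dist_eq_norm]; linarith
    have t2 : Tendsto (fun n => h n x - g n x) atTop (𝓝 0) :=
      squeeze_zero_norm (fun n => (hhg n x).le) hδ0
    have t3 : Tendsto (fun n => g n x) atTop (𝓝 (f x)) := by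
      simpa using t1.sub t2
    have t4 : Tendsto (fun n : ℕ => (1 + 1 / ((n : ℝ) + 1))⁻¹) atTop (𝓝 1) := by
      have := (hδ0.const_add 1).inv₀ (by norm_num)
      simpa using this
    simpa using t4.smul t3

theorem main (hXc : IsCompact X) (hXv : Convex ℝ X)
    {E : Type*} [NormedAddCommGroup E] [NormedSpace ℝ E] [CompleteSpace E]
    (hE : ∀ C : Set E, IsCompact C → ∀ ε : ℝ, 0 < ε → ∃ T : E →L[ℝ] E,
      FiniteDimensional ℝ (LinearMap.range (T : E →ₗ[ℝ] E)) ∧ ∀ y ∈ C, ‖T y - y‖ < ε)
    {f : X → E} (hf : ∀ (x y z : X) (t : ℝ), 0 ≤ t → t ≤ 1 →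
      (z : V) = t • (x : V) + (1 - t) • (y : V) → f z = t • f x + (1 - t) • f y)
    {u : ℕ → X → E} (hu : ∀ n, Continuous (u n)) (hu1 : ∀ n x, ‖u n x‖ ≤ 1)
    (hlim : ∀ x, Tendsto (fun n => u n x) atTop (𝓝 (f x))) :
    ∃ g : ℕ → X → E, (∀ n, Continuous (g n)) ∧
      (∀ n, ∀ (x y z : X) (t : ℝ), 0 ≤ t → t ≤ 1 →
        (z : V) = t • (x : V) + (1 - t) • (y : V) → g n z = t • g n x + (1 - t) • g n y) ∧
      (∀ n x, ‖g n x‖ ≤ 1) ∧ ∀ x, Tendsto (fun n => g n x) atTop (𝓝 (f x)) := by
  rcases isEmpty_or_nonempty X with hX | hX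
  · exact ⟨u, hu, fun n x => isEmptyElim x, hu1, hlim⟩
  have : CompactSpace X := isCompact_iff_compactSpace.mp hXc
  let B : Set (WeakDual ℝ E) := WeakDual.toStrongDual ⁻¹' Metric.closedBall 0 1
  have : CompactSpace B := isCompact_iff_compactSpace.mp (WeakDual.isCompact_closedBall 0 1)
  refine main_aux hXv (B := B) (fun b => WeakDual.toStrongDual b.1) (fun b => ?_) (fun y => ?_)
    (fun y => ?_) hE hf hu hu1 hlim
  · exact mem_closedBall_zero_iff.1 b.2
  · exact (WeakDual.eval_continuous y).comp continuous_subtype_val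
  · obtain ⟨g, hg1, hg2⟩ := exists_dual_vector'' ℝ y
    exact ⟨⟨StrongDual.toWeakDual g, mem_closedBall_zero_iff.2 hg1⟩, hg2⟩

end Pool.Agent.P.MP_8da836_an
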